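import Pool.Agent.KS6_36.Urn.Main

set_option autoImplicit false

/-!
# All limits of the graph based Polya urn with a large exponent

For every finite connected graph with at least two vertices and every sufficiently large exponent
the vector of the normalised numbers of balls converges almost surely to one of finitely many
points, one for each orientation of the graph in which every edge points to its end point with the
larger in-degree; and each of these points is the limit with positive probability, whatever the
initial configuration is. All of them are on the boundary of the simplex.
-/

namespace Pool.Agent.Results.MP_cd93fa_pr.AllLimits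

open MeasureTheory ProbabilityTheory Filter Topology
open H483U Pool.Agent.KS6_36.Urn

/-- **The limits of the graph based Polya urn.** A rising orientation is a choice `s` of one end
point of every edge such that the in-degree (the number of edges which choose a vertex) of the
chosen end point is larger than that of the other one. There is a rising orientation, and for all
large `α` there are different points `x s`, one for each rising orientation `s` (the only
equilibrium near the vector of the normalised in-degrees, exponentially close to it, vanishing
exactly at the sources), such that for every urn with exponent `α` almost surely the limit exists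
and is one of the points `x s`, and each `x s` is the limit with positive probability. -/
theorem result (V : Type) [Fintype V] [DecidableEq V] (G : SimpleGraph V) [DecidableRel G.Adj]
    (hG : G.Connected) (hV : 2 ≤ Fintype.card V) :
    (∃ s, Rising G s) ∧
    ∃ α₀ : ℝ, ∀ α : ℝ, α₀ < α → ∃ x : (G.edgeSet → V) → V → ℝ,
      (∀ s, Rising G s → IsPoint G α s (x s)) ∧
      (∀ s t, Rising G s → Rising G t → x s = x t → s = t) ∧
      ∀ B0 : V → ℕ, (∀ i, 1 ≤ B0 i) →
      ∀ (Ω : Type) (_ : MeasurableSpace Ω) (μ : Measure Ω) (_ : IsProbabilityMeasure μ)
        (ℱ : Filtration ℕ ‹MeasurableSpace Ω›) (c : ℕ → Ω → G.edgeSet → V),
        IsUrn G α B0 μ ℱ c →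
        (∀ᵐ ω ∂μ, ∃ s, Rising G s ∧ Tendsto (fun n => xx G B0 c n ω) atTop (𝓝 (x s))) ∧
        ∀ s, Rising G s →
          0 < μ {ω | Tendsto (fun n => xx G B0 c n ω) atTop (𝓝 (x s))} :=
  main V G hG hV

end Pool.Agent.Results.MP_cd93fa_pr.AllLimits
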